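import Pool.Agent.Helper55.FR.GoalsA
import Pool.Agent.Helper55.FR.GoalsB

set_option autoImplicit false

namespace Pool.Agent.Helper15.FR

open Finset
open Pool.Agent.Helper55.FR

open Classical in
theorem smg (hcnt : CntStmt) (hxr : XrStmt) (hzbd : ZbdStmt) : SmgStmt := by
  intro V _ _ n m h g L b0 θ ε blk ρ hC h0 h1 hg24 hL1 hLg hθ0 hθ1 hε hblk hNum hRef
  obtain ⟨S, hS⟩ : ∃ S : Finset (V → Lab), S = (univ : Finset (V → Lab)).filter (fun f =>
    Glo n m h g f ∧ b0 ≤ (Bad m f).card ∧
          Rooted (adj n m) (Zs n m ρ) (Dif ρ f) ∧ h * (Dif ρ f).card ≤ 16 * (Bad m f).card) :=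
    ⟨_, rfl⟩
  obtain ⟨s, hs⟩ : ∃ s, s = Real.sqrt θ := ⟨_, rfl⟩
  have hs0 : 0 ≤ s := by rw [hs]; exact Real.sqrt_nonneg _
  have hs1 : s < 1 := by
    rw [hs]
    calc Real.sqrt θ < Real.sqrt 1 := Real.sqrt_lt_sqrt hθ0.le hθ1
      _ = 1 := Real.sqrt_one
  have hLpos : (0 : ℝ) < L := by exact_mod_cast hL1
  have hgpos : (0 : ℝ) < g := by
    have : (0 : ℝ) < h * g := by linarith
    exact (pos_iff_pos_of_mul_pos this).1 h0
  have hLg' : (L : ℝ) ≤ g := by exact_mod_cast hLg
  -- one value of b
  have hb : ∀ b : ℕ, ∑ f ∈ S.filter (fun f => (Bad m f).card = b), θ ^ (Bad m f).card ≤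
      ε * (1 - s) * s ^ b := by
    intro b
    rcases (S.filter (fun f => (Bad m f).card = b)).eq_empty_or_nonempty with he | ⟨f0, hf0⟩
    · rw [he, sum_empty]
      have : 0 ≤ 1 - s := by linarith
      positivity
    · obtain ⟨A, hA⟩ : ∃ A, A = S.filter (fun f => (Bad m f).card = b) := ⟨_, rfl⟩
      have hAf : ∀ f ∈ A, Glo n m h g f ∧ b0 ≤ b ∧
          Rooted (adj n m) (Zs n m ρ) (Dif ρ f) ∧ h * (Dif ρ f).card ≤ 16 * b ∧
          (Bad m f).card = b := by
        intro f hf
        rw [hA, mem_filter, hS, mem_filter] at hf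
        obtain ⟨⟨-, a1, a2, a3, a4⟩, a5⟩ := hf
        rw [a5] at a2 a4
        exact ⟨a1, a2, a3, a4, a5⟩
      rw [← hA] at hf0
      obtain ⟨c1, c2, c3, c4, c5⟩ := hAf f0 hf0
      have hb04 : h * g ≤ 4 * b := by
        have := c1.cB
        rw [c5] at this
        exact this
      have hb0b : (b0 : ℝ) ≤ b := by exact_mod_cast c2
      obtain ⟨k, hk⟩ : ∃ k : ℕ, k = ⌈(16 * b / h + 16 * b * L / (h * g)) / L⌉₊ := ⟨_, rfl⟩
      obtain ⟨u, hu⟩ : ∃ u : ℕ, u = ⌊8 * (b : ℝ) / (h * g)⌋₊ := ⟨_, rfl⟩
      have hhg : 0 < h * g := by positivity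
      have hk1 : 16 * b / h + 16 * b * L / (h * g) ≤ L * k := by
        have := Nat.le_ceil ((16 * (b : ℝ) / h + 16 * b * L / (h * g)) / L)
        rw [← hk, div_le_iff₀ hLpos] at this
        linarith
      have hk2 : h * L * k ≤ 32 * b + h * L := by
        have h2 : (k : ℝ) < (16 * (b : ℝ) / h + 16 * b * L / (h * g)) / L + 1 := by
          rw [hk]
          apply Nat.ceil_lt_add_one
          positivity
        have h3 : h * L * k ≤ h * L * ((16 * (b : ℝ) / h + 16 * b * L / (h * g)) / L + 1) :=
          mul_le_mul_of_nonneg_left h2.le (by positivity)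
        have h4 : h * L * ((16 * (b : ℝ) / h + 16 * b * L / (h * g)) / L + 1) =
            16 * b + 16 * b * (L / g) + h * L := by
          field_simp
        have h5 : (L : ℝ) / g ≤ 1 := (div_le_one hgpos).2 hLg'
        have h6 : 16 * (b : ℝ) * (L / g) ≤ 16 * b * 1 :=
          mul_le_mul_of_nonneg_left h5 (by positivity)
        linarith
      have hu1 : h * g * u ≤ 8 * b := by
        have h2 : (u : ℝ) ≤ 8 * (b : ℝ) / (h * g) := by
          rw [hu]
          exact Nat.floor_le (by positivity)
        rw [le_div_iff₀ hhg] at h2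
        linarith
      have hz : h * (Zs n m ρ).card ≤ 8 * b + 2 := by
        have := hzbd V n m h g b0 ρ h0 h1 hg24 hRef
        linarith
      have hnum := hNum b k u (Zs n m ρ).card hb04 hk2 hu1 hz
      have hcard := hcnt V n m L blk hC hL1 hblk ρ (Zs n m ρ) A (fun f => Dif ρ f) k u (by
        intro f hf
        obtain ⟨d1, d2, d3, d4, d5⟩ := hAf f hf
        refine ⟨?_, d3, ?_, ?_⟩
        · intro x hx
          rw [Dif, mem_filter, not_and, not_or] at hx
          have := (hx (mem_univ _)).2
          exact not_not.1 this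
        · have hspf : h * g * (Spc n f).card ≤ 8 * b := by
            have := d1.cS
            rw [d5] at this
            exact this
          have hspr : h * g * (Spc n ρ).card ≤ 8 * b := by
            have := hRef.cS
            linarith
          have hX : (Xr n (Dif ρ f)).card ≤ (Spc n f).card + (Spc n ρ).card :=
            (card_le_card ((hxr V n f).2 ρ hRef.noO d1.noO)).trans (card_union_le _ _)
          have hX' : ((Xr n (Dif ρ f)).card : ℝ) ≤ 16 * b / (h * g) := by
            rw [le_div_iff₀ hhg]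
            have : ((Xr n (Dif ρ f)).card : ℝ) ≤ (Spc n f).card + (Spc n ρ).card := by
              exact_mod_cast hX
            nlinarith
          have hD : ((Dif ρ f).card : ℝ) ≤ 16 * b / h := by
            rw [le_div_iff₀ h0]
            linarith
          have h7 : ((Dif ρ f).card : ℝ) + L * (Xr n (Dif ρ f)).card ≤ L * k := by
            have : (L : ℝ) * (Xr n (Dif ρ f)).card ≤ L * (16 * b / (h * g)) :=
              mul_le_mul_of_nonneg_left hX' hLpos.le
            have e : (L : ℝ) * (16 * b / (h * g)) = 16 * b * L / (h * g) := by ring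
            linarith
          exact_mod_cast h7
        · rw [hu]
          apply Nat.le_floor
          rw [le_div_iff₀ hhg]
          have := d1.cS
          rw [d5] at this
          linarith)
      rw [← hA]
      calc ∑ f ∈ A, θ ^ (Bad m f).card = ∑ _f ∈ A, θ ^ b :=
            sum_congr rfl fun f hf => by rw [(hAf f hf).2.2.2.2]
        _ = A.card * θ ^ b := by rw [sum_const, nsmul_eq_mul]
        _ ≤ ((240 * (L : ℝ)) ^ k * 25 ^ (L * u) *
            (1 + 1 / (12 * (L : ℝ))) ^ (Zs n m ρ).card) * θ ^ b :=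
            mul_le_mul_of_nonneg_right hcard (by positivity)
        _ ≤ ε * (1 - s) * s ^ b := by rw [hs]; exact hnum
  rw [← hS]
  have hmaps : ∀ f ∈ S, (Bad m f).card ∈ range (Fintype.card V + 1) := by
    intro f _
    rw [mem_range]
    exact Nat.lt_succ_of_le (card_le_univ _)
  rw [← sum_fiberwise_of_maps_to hmaps]
  calc _ ≤ ∑ b ∈ range (Fintype.card V + 1), ε * (1 - s) * s ^ b := sum_le_sum fun b _ => hb b
    _ = ε * ((1 - s) * ∑ b ∈ range (Fintype.card V + 1), s ^ b) := by
        rw [mul_sum, mul_sum]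
        exact sum_congr rfl fun b _ => by ring
    _ ≤ ε * 1 := by
        apply mul_le_mul_of_nonneg_left _ hε
        have := mul_neg_geom_sum s (Fintype.card V + 1)
        rw [this]
        have : 0 ≤ s ^ (Fintype.card V + 1) := pow_nonneg hs0 _
        linarith
    _ = ε := mul_one _

end Pool.Agent.Helper15.FR
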